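import Pool.Agent.H90.GR.Win

/-!
# Columns of digits of tuples of numbers from a number field

Let `α_1, …, α_k` be real numbers, `b ≥ 2`, and let each of the `v_j` be one of the digits `0`, `b - 1`. For a
set `G` of indices we count the windows of `t` consecutive places in `{1, …, N}` in which at least one of the
numbers `α_j`, `j ∈ G`, has a digit different from `v_j`; for `t = 1` and `v = 0` this is the number
of the nonzero columns of the digits of the tuple `(α_j)_{j ∈ G}`. Let `W_G N` be this number.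

* If the numbers lie in a real number field of degree `D` and `1, α_1, …, α_k` are linearly independent, then
  the number `W N` of the columns of the whole tuple satisfies `W N ^ s ≥ c N` for `s = D - k + 1`.
  So `k` independent numbers of the field together have a nonzero digit at `≥ c N ^ (1 / (D - k + 1))` places;
  for `k = 1` this is the known exponent `1 / D`, and for a basis of the field it is `1 / 2`, for every degree.
* If the numbers `1`, `α_j` (`j ∈ A ∪ B`) span the field, then `W_A N * W_B N ≥ c N`.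
* In both cases `c = (1 - ε) t ^ (s - 1) / L`, if `q b ^ (t (s - 1)) ≤ b ^ (t L)`, where `q` depends on the
  numbers only and not on `b` and `t`; so `c = t / 2` or larger for `s = 2` and all `b ^ t` large enough.
* There is a general theorem for `s` sets of irrational algebraic numbers such that the products of `s` numbers, one
  from each of the sets, are rational combinations of the products of fewer of them.

## The proof

We may assume that `v = 0` and `t = 1`. Let `z_j = 1 + y_j`, where `y_j` is the fractional part of `α_j`,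
let `F_i` be the sum of the power series of the digits of the `z_j` with `j` in the `i`-th set, let `r m` be the
coefficients of the product `F_1 ⋯ F_s`, and `T m` the tail of the series of the product, multiplied by
`b ^ m`. For each choice of one number from every set, `q` times the tail of the product of the chosen
numbers is an integer up to the tails of the products of fewer numbers. These are small, and the tail
of the product is near to an integer multiple of `1 / q` for all `m ≤ N` but `o(N)`, unless the product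
of the numbers of columns exceeds `C N`; it is positive by Ridout's theorem. So `q T m ≥ 1 - δ` for most `m`, and
the potential argument for the recursion `T (m + 1) = b T m - r (m + 1)` shows that at least `(1 - ε) N / L` of the
`r m` are positive; this number is at most the product of the numbers of columns. For a field of degree
`D` the powers of the space spanned by `1, α_1, …, α_k` must become stationary before the exponent
`D - k + 1`.
-/

set_option autoImplicit false

open Finset Filter

namespace Pool.Agent.Results.MP_c8ecb2_nt.ColumnsOfDigits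

/-- the `k`-th digit after the point of `x` in base `b` -/
noncomputable def digit (b : ℕ) (x : ℝ) (k : ℕ) : ℤ := ⌊x * (b : ℝ) ^ k⌋ % (b : ℤ)

/-- the number of windows `{m, …, m + t - 1}` of `t` consecutive places in `{1, …, N}` in which for some
`j ∈ G` some digit of `α j` is not `v j` -/
noncomputable def columns {k : ℕ} (b : ℕ) (v : Fin k → ℤ) (α : Fin k → ℝ) (G : Finset (Fin k))
    (t N : ℕ) : ℕ :=
  ((Icc 1 (N + 1 - t)).filter fun m => ∃ j ∈ G, ∃ i < t, digit b (α j) (m + i) ≠ v j).card

theorem result :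
    -- (1) sets `G 0, …, G (s - 1)` of irrational algebraic numbers such that all the products of `s` numbers,
    -- one from each set, are combinations of such products with fewer factors
    (∀ k s : ℕ, 2 ≤ s → ∀ α : Fin k → ℝ, (∀ j, IsAlgebraic ℚ (α j)) → (∀ j, Irrational (α j)) →
      ∀ G : Fin s → Finset (Fin k), (∀ i, (G i).Nonempty) → ∀ q : ℕ, 1 ≤ q →
      (∀ φ : Fin s → Fin k, (∀ i, φ i ∈ G i) → (q : ℝ) * ∏ i, α (φ i) ∈
        AddSubgroup.closure {x : ℝ | ∃ I : Finset (Fin s), I ≠ univ ∧
          ∃ ψ : Fin s → Fin k, (∀ i ∈ I, ψ i ∈ G i) ∧ x = ∏ i ∈ I, α (ψ i)}) →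
      ∀ b : ℕ, 2 ≤ b → ∀ v : Fin k → ℤ, (∀ j, v j = 0 ∨ v j = b - 1) → ∀ t L : ℕ, 1 ≤ t →
      q * (∏ i, (G i).card) * (b ^ t - 1) ^ (s - 1) < b ^ (t * L) →
      ∀ ε : ℝ, 0 < ε → ∀ᶠ N : ℕ in atTop,
        (1 - ε) * ((t : ℝ) ^ (s - 1) * N) ≤ L * ∏ i, (columns b v α (G i) t N : ℝ)) ∧
    -- (2) `k` independent numbers in a field of degree `D < k + s`
    (∀ k s : ℕ, 1 ≤ k → 2 ≤ s → ∀ K : IntermediateField ℚ ℝ, FiniteDimensional ℚ K →
      Module.finrank ℚ K < k + s → ∀ α : Fin k → ℝ, (∀ j, α j ∈ K) →
      LinearIndependent ℚ (Fin.cons (1 : ℝ) α : Fin (k + 1) → ℝ) →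
      ∃ q : ℕ, 1 ≤ q ∧ ∀ b : ℕ, 2 ≤ b → ∀ v : Fin k → ℤ, (∀ j, v j = 0 ∨ v j = b - 1) →
      ∀ t L : ℕ, 1 ≤ t → q * (b ^ t - 1) ^ (s - 1) < b ^ (t * L) →
      ∀ ε : ℝ, 0 < ε → ∀ᶠ N : ℕ in atTop,
        (1 - ε) * ((t : ℝ) ^ (s - 1) * N) ≤ L * (columns b v α univ t N : ℝ) ^ s) ∧
    -- (3) two sets of numbers which together with `1` span a field
    (∀ k : ℕ, ∀ K : IntermediateField ℚ ℝ, FiniteDimensional ℚ K → ∀ α : Fin k → ℝ,
      (∀ j, α j ∈ K) → (∀ j, Irrational (α j)) → ∀ A B : Finset (Fin k), A.Nonempty → B.Nonempty →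
      (∀ x ∈ K, x ∈ Submodule.span ℚ ({1} ∪ α '' (A ∪ B : Finset (Fin k)))) →
      ∃ q : ℕ, 1 ≤ q ∧ ∀ b : ℕ, 2 ≤ b → ∀ v : Fin k → ℤ, (∀ j, v j = 0 ∨ v j = b - 1) →
      ∀ t L : ℕ, 1 ≤ t → q * (b ^ t - 1) < b ^ (t * L) →
      ∀ ε : ℝ, 0 < ε → ∀ᶠ N : ℕ in atTop,
        (1 - ε) * ((t : ℝ) * N) ≤
          L * ((columns b v α A t N : ℝ) * (columns b v α B t N : ℝ))) := by
  have h1 : ∀ k s : ℕ, 2 ≤ s → ∀ α : Fin k → ℝ, (∀ j, IsAlgebraic ℚ (α j)) →
      (∀ j, Irrational (α j)) →
      ∀ G : Fin s → Finset (Fin k), (∀ i, (G i).Nonempty) → ∀ q : ℕ, 1 ≤ q →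
      (∀ φ : Fin s → Fin k, (∀ i, φ i ∈ G i) → (q : ℝ) * ∏ i, α (φ i) ∈
        AddSubgroup.closure {x : ℝ | ∃ I : Finset (Fin s), I ≠ univ ∧
          ∃ ψ : Fin s → Fin k, (∀ i ∈ I, ψ i ∈ G i) ∧ x = ∏ i ∈ I, α (ψ i)}) →
      ∀ b : ℕ, 2 ≤ b → ∀ v : Fin k → ℤ, (∀ j, v j = 0 ∨ v j = b - 1) → ∀ t L : ℕ, 1 ≤ t →
      q * (∏ i, (G i).card) * (b ^ t - 1) ^ (s - 1) < b ^ (t * L) →
      ∀ ε : ℝ, 0 < ε → ∀ᶠ N : ℕ in atTop,
        (1 - ε) * ((t : ℝ) ^ (s - 1) * N) ≤ L * ∏ i, (columns b v α (G i) t N : ℝ) := by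
    intro k s hs α halg hirr G hG q hq hrel b hb v hv t L ht hL ε hε
    obtain ⟨n0, h0⟩ := Pool.Agent.H90.GR.main_grp hb (by rw [Fintype.card_fin]; exact hs) α halg
      hirr G hG q hq hrel v hv t ht L (by rw [Fintype.card_fin]; exact hL) hε
    filter_upwards [eventually_ge_atTop n0] with N hN
    have h2 := h0 N hN
    rw [Fintype.card_fin] at h2
    have e : ∀ i, Pool.Agent.H90.GR.wG b v α (G i) t N = columns b v α (G i) t N := by
      intro i
      unfold Pool.Agent.H90.GR.wG columns
      congr!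
    simp only [e] at h2
    exact h2
  refine ⟨h1, ?_, ?_⟩
  · intro k s hk hs K hfd hdeg α hα hind
    obtain ⟨q, hq, hrel⟩ := Pool.Agent.H90.GR.rel_field K hk α hα hind s (by omega) hdeg
    have hne : (univ : Finset (Fin k)).Nonempty := ⟨⟨0, by omega⟩, mem_univ _⟩
    refine ⟨q * k ^ s, Nat.mul_pos hq (pow_pos (by omega) _), fun b hb v hv t L ht hL ε hε => ?_⟩
    have h2 := h1 k s hs α (fun i => ?_) (fun i => Pool.Agent.H90.PR.irr_of_ind α hind i)
      (fun _ => univ) (fun _ => hne) q hq hrel b hb v hv t L ht (by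
        rw [prod_const, card_univ, card_univ, Fintype.card_fin, Fintype.card_fin]
        exact hL) ε hε
    · filter_upwards [h2] with N hN
      rw [prod_const, card_univ, Fintype.card_fin] at hN
      exact hN
    · have h3 : IsIntegral ℚ (⟨α i, hα i⟩ : K) := Algebra.IsIntegral.isIntegral _
      exact (h3.map K.val).isAlgebraic
  · intro k K hfd α hα hirr A B hA hB hspan
    obtain ⟨q, hq, hrel⟩ := Pool.Agent.H90.GR.rel_cover K α hα A B hspan hA
    refine ⟨q * (A.card * B.card), Nat.mul_pos hq (Nat.mul_pos hA.card_pos hB.card_pos),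
      fun b hb v hv t L ht hL ε hε => ?_⟩
    have h2 := h1 k 2 le_rfl α (fun i => ?_) hirr ![A, B] (fun i => by
        fin_cases i
        · exact hA
        · exact hB) q hq hrel b hb v hv t L ht (by
        rw [Fin.prod_univ_two]
        simp only [Matrix.cons_val_zero, Matrix.cons_val_one]
        rw [show 2 - 1 = 1 from rfl, pow_one]
        exact hL) ε hε
    · filter_upwards [h2] with N hN
      rw [Fin.prod_univ_two] at hN
      simp only [Matrix.cons_val_zero, Matrix.cons_val_one] at hN
      rw [show 2 - 1 = 1 from rfl, pow_one] at hN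
      exact hN
    · have h3 : IsIntegral ℚ (⟨α i, hα i⟩ : K) := Algebra.IsIntegral.isIntegral _
      exact (h3.map K.val).isAlgebraic

end Pool.Agent.Results.MP_c8ecb2_nt.ColumnsOfDigits
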