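import Pool.Agent.H90.DE.Dig

/-!
# Digit changes of tuples of real numbers with a relation modulo a prime

Let `x_1, …, x_n` be irrational real numbers, algebraic or not, with a relation
`q x_1 ⋯ x_n = ∑ p_I ∏ i ∈ I, x_i`, where `I` runs over the proper subsets of the set of indices, and `q ≥ 1` and
the `p_I` are integers. Assume that a prime `ℓ` which does not divide `b` divides `q` and all the `p_I` with
`I ≠ ∅`, but not `p_∅`; so, for instance, `x_1 ⋯ x_n` may be a rational number with `ℓ` in its denominator,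
as for `√2 * (√2 / 3) = 2 / 3` or for `α * (1 / (3 α)) = 1 / 3` with any irrational `α`.

For `s ≥ 1` let `γ_s (x, N)` be the number of the places `k ≤ N` with different digits at the places `k` and
`k + s`; so `γ_1` counts the digit changes. If `ℓ` does not divide the numbers `b ^ (s_i) - 1`, then

`L * γ_{s_1} (x_1, N) ⋯ γ_{s_n} (x_n, N) ≥ (1 - ε) N` for all large `N`, if `q (b - 1) ^ (n - 1) < b ^ L`.

More generally, let `P_i` be integer polynomials for which `ℓ` does not divide `P_i (b)`, and count the places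
`k ≤ N` at which the digits of `x_i` do not satisfy the linear recurrence with the coefficients of `P_i`: then
`L` times the product of the counts is at least `(1 - ε) N`, if `q B_1 ⋯ B_n < (b - 1) b ^ L`, where `B_i`
bounds the possible values of the recurrence. For `P_i = 1` these are the places of the nonzero digits, and one may mix
the different kinds of counts.

For `n` equal numbers this is about an algebraic number; for digit changes the exponent `1 / n` is then due to Kaneko.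

## The proof

The number `z = P(b) x - m` has, for a suitable integer `m`, the expansion `∑ d_k b ^ (-k)`, where `d_k` is the value of
the recurrence at the place `k ≥ 1`. The relation for the `x_i` gives one for the `z_i` with the same property.
Let `T m` be the tail of the series of `z_1 ⋯ z_n` after the place `m`, multiplied by `b ^ m`. Then `q T m` differs from
an integer `≡ c b ^ m` modulo `ℓ`, with `ℓ ∤ c`, by a combination of the tails of the products of fewer numbers, which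
are small for all `m ≤ N` but `o(N)`, unless the product of the counts exceeds `N`. So
`q |T m| ≥ 1 - η` for most `m`, and a potential for `|T (m + 1)| ≥ b |T m| - |r (m + 1)|` gives the bound.
-/

set_option autoImplicit false

open Finset Filter Polynomial

namespace Pool.Agent.Results.MP_c8ecb2_nt.DigitChanges

/-- the `k`-th digit after the point of `x` in base `b` -/
noncomputable def digit (b : ℕ) (x : ℝ) (k : ℕ) : ℤ := ⌊x * (b : ℝ) ^ k⌋ % (b : ℤ)

/-- the number of places `k` with `1 ≤ k ≤ N` at which the digits of `x` do not satisfy the linear recurrence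
`∑ P_j a_(k + j) = 0` with the coefficients of `P` -/
noncomputable def defects (b : ℕ) (P : ℤ[X]) (x : ℝ) (N : ℕ) : ℕ :=
  ((Icc 1 N).filter fun k => (P.sum fun j c => c * digit b x (k + j)) ≠ 0).card

/-- the number of places `k` with `1 ≤ k ≤ N` for which the digits of `x` at the places `k` and
`k + s` are different -/
noncomputable def changes (b s : ℕ) (x : ℝ) (N : ℕ) : ℕ :=
  ((Icc 1 N).filter fun k => digit b x (k + s) ≠ digit b x k).card

lemma sum_bin {s : ℕ} (hs : 1 ≤ s) {R : Type} [AddCommMonoid R] (f : ℕ → ℤ → R) :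
    (C (-1) * X ^ 0 + C 1 * X ^ s : ℤ[X]).sum f = f 0 (-1) + f s 1 := by
  have h0 : (0 : ℕ) ≠ s := by omega
  rw [Polynomial.sum_def, Polynomial.support_binomial h0 (by norm_num) (by norm_num), sum_pair h0]
  have h1 : (C (-1) * X ^ 0 + C 1 * X ^ s : ℤ[X]).coeff 0 = -1 := by
    rw [coeff_add, coeff_C_mul_X_pow, coeff_C_mul_X_pow, if_pos rfl, if_neg h0, add_zero]
  have h2 : (C (-1) * X ^ 0 + C 1 * X ^ s : ℤ[X]).coeff s = 1 := by
    rw [coeff_add, coeff_C_mul_X_pow, coeff_C_mul_X_pow, if_neg (by omega), if_pos rfl, zero_add]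
  rw [h1, h2]

lemma changes_eq (b : ℕ) {s : ℕ} (hs : 1 ≤ s) (x : ℝ) (N : ℕ) :
    defects b (C (-1) * X ^ 0 + C 1 * X ^ s) x N = changes b s x N := by
  unfold defects changes
  congr 1
  refine filter_congr fun k _ => ?_
  rw [sum_bin hs, add_zero]
  constructor
  · intro h1 h2
    apply h1
    rw [h2]
    ring
  · intro h1 h2
    apply h1
    linarith

/-- the relation for `D` equal numbers -/
lemma one_rel (Q : ℤ[X]) (ξ : ℝ) (hroot : aeval ξ Q = 0) (ℓ : ℕ)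
    (hℓ : ∀ j, 1 ≤ j → (ℓ : ℤ) ∣ Q.coeff j) (hℓ0 : ¬ (ℓ : ℤ) ∣ Q.coeff 0) :
    ∃ p : Finset (Fin Q.natDegree) → ℤ, (Q.leadingCoeff.natAbs : ℝ) * ∏ _i : Fin Q.natDegree, ξ =
      ∑ I ∈ univ.erase (univ : Finset (Fin Q.natDegree)), (p I : ℝ) * ∏ _i ∈ I, ξ ∧
      (∀ I, I ≠ univ → I ≠ ∅ → (ℓ : ℤ) ∣ p I) ∧ ¬ (ℓ : ℤ) ∣ p ∅ := by
  classical
  set D := Q.natDegree with hD
  set e : ℕ → Finset (Fin D) := fun j => univ.filter fun i : Fin D => i.val < j with he
  have hcard : ∀ j, j ≤ D → (e j).card = j := fun j hj => by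
    simp only [he]
    rw [Fin.card_filter_val_lt, min_eq_right hj]
  obtain ⟨σ, hσ, hσ2⟩ : ∃ σ : ℤ, (σ = 1 ∨ σ = -1) ∧ (Q.leadingCoeff.natAbs : ℤ) = σ * Q.leadingCoeff := by
    rcases Int.natAbs_eq Q.leadingCoeff with h | h
    · exact ⟨1, Or.inl rfl, by omega⟩
    · exact ⟨-1, Or.inr rfl, by omega⟩
  refine ⟨fun I => if I = e I.card then -σ * Q.coeff I.card else 0, ?_, ?_, ?_⟩
  · have h1 : ∑ I ∈ univ.erase (univ : Finset (Fin D)),
        (((if I = e I.card then -σ * Q.coeff I.card else 0 : ℤ)) : ℝ) * ∏ _i ∈ I, ξ =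
        ∑ j ∈ range D, ((-σ * Q.coeff j : ℤ) : ℝ) * ξ ^ j := by
      symm
      refine sum_of_injOn e ?_ ?_ ?_ ?_
      · intro j hj j' hj' h
        have h2 := hcard j (mem_range.1 hj).le
        rw [h, hcard j' (mem_range.1 hj').le] at h2
        exact h2.symm
      · intro j hj
        have hj' := mem_range.1 hj
        rw [mem_coe, mem_erase]
        refine ⟨fun h => ?_, mem_univ _⟩
        have h2 := hcard j hj'.le
        rw [h, card_univ, Fintype.card_fin] at h2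
        omega
      · intro I hI hI2
        rw [if_neg, Int.cast_zero, zero_mul]
        intro h
        apply hI2
        refine ⟨I.card, ?_, h.symm⟩
        rw [mem_coe, mem_range]
        have h3 : I.card ≤ D := by
          have := card_le_univ I
          rwa [Fintype.card_fin] at this
        refine lt_of_le_of_ne h3 fun h4 => (mem_erase.1 hI).1 ?_
        apply eq_univ_of_card
        rw [h4, Fintype.card_fin]
      · intro j hj
        have hj' := mem_range.1 hj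
        rw [hcard j hj'.le, if_pos rfl, prod_const, hcard j hj'.le]
    rw [h1, prod_const, card_univ, Fintype.card_fin]
    have h2 := hroot
    rw [aeval_eq_sum_range, sum_range_succ] at h2
    simp only [zsmul_eq_mul] at h2
    have h3 : ((Q.leadingCoeff.natAbs : ℕ) : ℝ) = (σ : ℝ) * (Q.coeff D : ℤ) := by
      have : (((Q.leadingCoeff.natAbs : ℕ) : ℤ) : ℝ) = ((σ * Q.leadingCoeff : ℤ) : ℝ) := by rw [hσ2]
      rw [Int.cast_natCast, Int.cast_mul] at this
      exact this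
    rw [h3]
    have h4 : ∑ j ∈ range D, ((-σ * Q.coeff j : ℤ) : ℝ) * ξ ^ j =
        -(σ : ℝ) * ∑ j ∈ range D, ((Q.coeff j : ℤ) : ℝ) * ξ ^ j := by
      rw [mul_sum]
      refine sum_congr rfl fun j _ => ?_
      push_cast
      ring
    rw [h4]
    have h5 : ∑ j ∈ range D, ((Q.coeff j : ℤ) : ℝ) * ξ ^ j = -((Q.coeff D : ℤ) * ξ ^ D) := by
      linarith
    rw [h5]
    ring
  · intro I _ hI0
    simp only
    split_ifs with h
    · exact (hℓ _ (card_pos.2 (nonempty_iff_ne_empty.2 hI0))).mul_left _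
    · exact dvd_zero _
  · have h1 : (∅ : Finset (Fin D)) = e (∅ : Finset (Fin D)).card := by
      simp [he]
    simp only
    rw [if_pos h1, card_empty]
    intro h
    apply hℓ0
    rcases hσ with h2 | h2
    · rw [h2] at h
      have : -(1 : ℤ) * Q.coeff 0 = -Q.coeff 0 := by ring
      rw [this] at h
      exact (dvd_neg).1 h
    · rw [h2] at h
      have : -(-1 : ℤ) * Q.coeff 0 = Q.coeff 0 := by ring
      rwa [this] at h

theorem result :
    -- (1) defects of linear recurrences for the digits of irrational numbers with a relation modulo `ℓ`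
    (∀ b : ℕ, 2 ≤ b → ∀ n : ℕ, ∀ x : Fin n → ℝ, (∀ i, Irrational (x i)) →
      ∀ q : ℕ, 1 ≤ q → ∀ p : Finset (Fin n) → ℤ,
      (q : ℝ) * ∏ i, x i = ∑ I ∈ univ.erase (univ : Finset (Fin n)), (p I : ℝ) * ∏ i ∈ I, x i →
      ∀ ℓ : ℕ, ℓ.Prime → ¬ ℓ ∣ b → ℓ ∣ q →
      (∀ I : Finset (Fin n), I ≠ univ → I ≠ ∅ → (ℓ : ℤ) ∣ p I) → ¬ (ℓ : ℤ) ∣ p ∅ →
      ∀ P : Fin n → ℤ[X], (∀ i, ¬ (ℓ : ℤ) ∣ (P i).eval (b : ℤ)) → ∀ B : Fin n → ℕ,
      (∀ i, (b - 1) * (P i).sum (fun _ c => c.toNat) ≤ B i ∧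
        (b - 1) * (P i).sum (fun _ c => (-c).toNat) ≤ B i) →
      ∀ L : ℕ, q * ∏ i, B i < (b - 1) * b ^ L →
      ∀ ε : ℝ, 0 < ε → ∀ᶠ N : ℕ in atTop, (1 - ε) * N ≤ L * ∏ i, (defects b (P i) (x i) N : ℝ)) ∧
    -- (2) digit changes and changes with lags `s i`
    (∀ b : ℕ, 2 ≤ b → ∀ n : ℕ, ∀ x : Fin n → ℝ, (∀ i, Irrational (x i)) →
      ∀ q : ℕ, 1 ≤ q → ∀ p : Finset (Fin n) → ℤ,
      (q : ℝ) * ∏ i, x i = ∑ I ∈ univ.erase (univ : Finset (Fin n)), (p I : ℝ) * ∏ i ∈ I, x i →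
      ∀ ℓ : ℕ, ℓ.Prime → ¬ ℓ ∣ b → ℓ ∣ q →
      (∀ I : Finset (Fin n), I ≠ univ → I ≠ ∅ → (ℓ : ℤ) ∣ p I) → ¬ (ℓ : ℤ) ∣ p ∅ →
      ∀ s : Fin n → ℕ, (∀ i, 1 ≤ s i ∧ ¬ ℓ ∣ b ^ s i - 1) →
      ∀ L : ℕ, q * (b - 1) ^ (n - 1) < b ^ L →
      ∀ ε : ℝ, 0 < ε → ∀ᶠ N : ℕ in atTop, (1 - ε) * N ≤ L * ∏ i, (changes b (s i) (x i) N : ℝ)) ∧
    -- (3) two numbers whose product is a rational number
    (∀ b : ℕ, 2 ≤ b → ∀ x y : ℝ, Irrational x → ∀ m : ℕ, 1 ≤ m → ∀ c : ℤ, x * y = c / m →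
      ∀ ℓ : ℕ, ℓ.Prime → ¬ ℓ ∣ b → ℓ ∣ m → ¬ (ℓ : ℤ) ∣ c →
      ∀ s t : ℕ, 1 ≤ s → 1 ≤ t → ¬ ℓ ∣ b ^ s - 1 → ¬ ℓ ∣ b ^ t - 1 →
      ∀ L : ℕ, m * (b - 1) < b ^ L →
      ∀ ε : ℝ, 0 < ε → ∀ᶠ N : ℕ in atTop,
        (1 - ε) * N ≤ L * ((changes b s x N : ℝ) * (changes b t y N : ℝ))) ∧
    -- (4) one algebraic number, a root of a polynomial `Q` whose coefficients but the last are divisible by `ℓ`
    (∀ b : ℕ, 2 ≤ b → ∀ Q : ℤ[X], ∀ ξ : ℝ, Irrational ξ → aeval ξ Q = 0 →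
      ∀ ℓ : ℕ, ℓ.Prime → ¬ ℓ ∣ b → (∀ j, 1 ≤ j → (ℓ : ℤ) ∣ Q.coeff j) → ¬ (ℓ : ℤ) ∣ Q.coeff 0 →
      ∀ s : ℕ, 1 ≤ s → ¬ ℓ ∣ b ^ s - 1 →
      ∀ L : ℕ, Q.leadingCoeff.natAbs * (b - 1) ^ (Q.natDegree - 1) < b ^ L →
      ∀ ε : ℝ, 0 < ε → ∀ᶠ N : ℕ in atTop,
        (1 - ε) * N ≤ L * (changes b s ξ N : ℝ) ^ Q.natDegree) := by
  have h1 : ∀ b : ℕ, 2 ≤ b → ∀ n : ℕ, ∀ x : Fin n → ℝ, (∀ i, Irrational (x i)) →
      ∀ q : ℕ, 1 ≤ q → ∀ p : Finset (Fin n) → ℤ,
      (q : ℝ) * ∏ i, x i = ∑ I ∈ univ.erase (univ : Finset (Fin n)), (p I : ℝ) * ∏ i ∈ I, x i →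
      ∀ ℓ : ℕ, ℓ.Prime → ¬ ℓ ∣ b → ℓ ∣ q →
      (∀ I : Finset (Fin n), I ≠ univ → I ≠ ∅ → (ℓ : ℤ) ∣ p I) → ¬ (ℓ : ℤ) ∣ p ∅ →
      ∀ P : Fin n → ℤ[X], (∀ i, ¬ (ℓ : ℤ) ∣ (P i).eval (b : ℤ)) → ∀ B : Fin n → ℕ,
      (∀ i, (b - 1) * (P i).sum (fun _ c => c.toNat) ≤ B i ∧
        (b - 1) * (P i).sum (fun _ c => (-c).toNat) ≤ B i) →
      ∀ L : ℕ, q * ∏ i, B i < (b - 1) * b ^ L →
      ∀ ε : ℝ, 0 < ε → ∀ᶠ N : ℕ in atTop,
        (1 - ε) * N ≤ L * ∏ i, (defects b (P i) (x i) N : ℝ) := by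
    intro b hb n x hx q hq p hrel ℓ hℓ hℓb hℓq hℓp hℓ0 P hP B hB L hL ε hε
    obtain ⟨n0, h0⟩ := Pool.Agent.H90.DE.main_def hb x hx q hq p hrel ℓ hℓ hℓq hℓp hℓ0 hℓb P hP B hB
      L hL hε
    filter_upwards [eventually_ge_atTop n0] with N hN
    exact h0 N hN
  have h2 : ∀ b : ℕ, 2 ≤ b → ∀ n : ℕ, ∀ x : Fin n → ℝ, (∀ i, Irrational (x i)) →
      ∀ q : ℕ, 1 ≤ q → ∀ p : Finset (Fin n) → ℤ,
      (q : ℝ) * ∏ i, x i = ∑ I ∈ univ.erase (univ : Finset (Fin n)), (p I : ℝ) * ∏ i ∈ I, x i →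
      ∀ ℓ : ℕ, ℓ.Prime → ¬ ℓ ∣ b → ℓ ∣ q →
      (∀ I : Finset (Fin n), I ≠ univ → I ≠ ∅ → (ℓ : ℤ) ∣ p I) → ¬ (ℓ : ℤ) ∣ p ∅ →
      ∀ s : Fin n → ℕ, (∀ i, 1 ≤ s i ∧ ¬ ℓ ∣ b ^ s i - 1) →
      ∀ L : ℕ, q * (b - 1) ^ (n - 1) < b ^ L →
      ∀ ε : ℝ, 0 < ε → ∀ᶠ N : ℕ in atTop,
        (1 - ε) * N ≤ L * ∏ i, (changes b (s i) (x i) N : ℝ) := by
    intro b hb n x hx q hq p hrel ℓ hℓ hℓb hℓq hℓp hℓ0 s hs L hL ε hε
    have hn : 1 ≤ n := by
      rcases Nat.eq_zero_or_pos n with h | h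
      · exfalso
        subst h
        have h5 : univ.erase (univ : Finset (Fin 0)) = ∅ := by decide
        rw [h5, sum_empty] at hrel
        simp only [univ_eq_empty, prod_empty, mul_one] at hrel
        have h6 : q = 0 := by exact_mod_cast hrel
        omega
      · exact h
    have h3 := h1 b hb n x hx q hq p hrel ℓ hℓ hℓb hℓq hℓp hℓ0
      (fun i => C (-1) * X ^ 0 + C 1 * X ^ s i) (fun i => by
        have h4 : (C (-1) * X ^ 0 + C 1 * X ^ s i : ℤ[X]).eval (b : ℤ) = ((b ^ s i - 1 : ℕ) : ℤ) := by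
          rw [Nat.cast_sub (Nat.one_le_pow _ _ (by omega))]
          simp
          ring
        rw [h4]
        exact fun h => (hs i).2 (Int.natCast_dvd_natCast.1 h)) (fun _ => b - 1) (fun i => by
        rw [sum_bin (hs i).1, sum_bin (hs i).1]
        constructor <;> simp) L (by
        rw [prod_const, card_univ, Fintype.card_fin]
        obtain ⟨k, rfl⟩ : ∃ k, n = k + 1 := ⟨n - 1, by omega⟩
        rw [Nat.add_sub_cancel] at hL
        calc q * (b - 1) ^ (k + 1) = (b - 1) * (q * (b - 1) ^ k) := by rw [pow_succ]; ring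
          _ < (b - 1) * b ^ L := Nat.mul_lt_mul_of_pos_left hL (by omega)) ε hε
    filter_upwards [h3] with N hN
    simp only [fun i => changes_eq b (hs i).1 (x i) N] at hN
    exact hN
  refine ⟨h1, h2, ?_, ?_⟩
  rotate_left
  · intro b hb Q ξ hξ hroot ℓ hℓ hℓb hℓQ hℓ0 s hs hℓs L hL ε hε
    have hQ0 : Q ≠ 0 := by
      rintro rfl
      exact hℓ0 (by simp)
    have hdeg : 1 ≤ Q.natDegree := by
      by_contra h
      have h3 : Q.natDegree = 0 := by omega
      have h4 := Polynomial.eq_C_of_natDegree_eq_zero h3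
      rw [h4, aeval_C] at hroot
      have h5 : ((Q.coeff 0 : ℤ) : ℝ) = 0 := hroot
      have h6 : Q.coeff 0 = 0 := by exact_mod_cast h5
      exact hℓ0 (by rw [h6]; exact dvd_zero _)
    obtain ⟨p, hrel, hp, hp0⟩ := one_rel Q ξ hroot ℓ hℓQ hℓ0
    have hl0 : Q.leadingCoeff.natAbs ≠ 0 := Int.natAbs_ne_zero.2 (leadingCoeff_ne_zero.mpr hQ0)
    have h3 := h2 b hb Q.natDegree (fun _ => ξ) (fun _ => hξ) Q.leadingCoeff.natAbs (by omega) p hrel
      ℓ hℓ hℓb (Int.natCast_dvd.1 (hℓQ _ hdeg)) hp hp0 (fun _ => s) (fun _ => ⟨hs, hℓs⟩) L hL ε hε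
    filter_upwards [h3] with N hN
    rw [prod_const, card_univ, Fintype.card_fin] at hN
    exact hN
  intro b hb x y hx m hm c hxy ℓ hℓ hℓb hℓm hℓc s t hs ht hℓs hℓt L hL ε hε
  have hc0 : c ≠ 0 := by
    rintro rfl
    exact hℓc (dvd_zero _)
  have hm0 : (m : ℝ) ≠ 0 := by
    have : (0 : ℝ) < m := by exact_mod_cast (by omega : 0 < m)
    exact this.ne'
  have hy : Irrational y := by
    have hx0 : x ≠ 0 := hx.ne_zero
    have h3 : y = (c / m : ℚ) / x := by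
      rw [eq_div_iff hx0, mul_comm]
      push_cast
      exact hxy
    rw [h3]
    exact hx.ratCast_div (div_ne_zero (by exact_mod_cast hc0) (by exact_mod_cast (by omega : m ≠ 0)))
  have h3 := h2 b hb 2 ![x, y] (by
      intro i
      fin_cases i
      · exact hx
      · exact hy) m hm (fun I => if I = ∅ then c else 0) (by
      have hne : (∅ : Finset (Fin 2)) ∈ univ.erase (univ : Finset (Fin 2)) := by decide
      rw [sum_eq_single_of_mem ∅ hne (fun I _ hI => by rw [if_neg hI]; simp), if_pos rfl,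
        prod_empty, Fin.prod_univ_two]
      simp only [Matrix.cons_val_zero, Matrix.cons_val_one]
      rw [hxy, mul_one]
      field_simp) ℓ hℓ hℓb hℓm (fun I _ hI => by
      rw [if_neg hI]
      exact dvd_zero _) (by
      show ¬ (ℓ : ℤ) ∣ (if (∅ : Finset (Fin 2)) = ∅ then c else 0)
      rw [if_pos rfl]
      exact hℓc) ![s, t] (by
      intro i
      fin_cases i
      · exact ⟨hs, hℓs⟩
      · exact ⟨ht, hℓt⟩) L (by
      rw [show 2 - 1 = 1 from rfl, pow_one]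
      exact hL) ε hε
  filter_upwards [h3] with N hN
  rw [Fin.prod_univ_two] at hN
  exact hN

end Pool.Agent.Results.MP_c8ecb2_nt.DigitChanges
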