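import Pool.Agent.H90.PR.Win
import Pool.Agent.H90.PR.Basis

/-!
# The digits of tuples of algebraic numbers whose product is an integer

Let `α_1, …, α_n` be irrational real algebraic numbers (`n ≥ 2`) whose product is an integer, for
example `(α, c / α)` or `(2 ^ (1/6), 2 ^ (1/3), 2 ^ (1/2))`, let `b ≥ 2` and let each of the `v_i` be
one of the digits `0`, `b - 1`. Let `W_i N` be the number of windows of `t` consecutive places
in `{1, …, N}` in which `α_i` has a digit different from `v_i`; for `t = 1` this is the number of the digits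
of `α_i` which are not `v_i`. Then `W_1 N ⋯ W_n N ≥ (1 - ε) t ^ (n - 1) N / (n - 1)` for all large `N`; so for
pairs `W_1 N W_2 N ≥ (1 - ε) t N`, with the same constant in all bases. More generally the numbers may satisfy
a relation `q α_1 ⋯ α_n = ∑ p_I ∏ i ∈ I, α_i`, where `I` runs over the proper subsets of the
set of indices. This is so, with a suitable `q`, if `1, α_1, …, α_n` is a basis of a real number field of
degree `n + 1 ≥ 3`; so for all `α, β` in a real cubic field for which `1, α, β` are linearly independent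
the numbers of nonzero digits satisfy `W_1 N W_2 N ≥ c N`.

## The proof

We may assume that `v_i = 0` and, replacing `b` by `b ^ t`, that `t = 1`. Let `F_i` be the power series of
the digits of `1 + y_i`, where `y_i` is the fractional part of `α_i`, let `r m` be the coefficients of
`F_1 ⋯ F_n`, and `T m` the tail of the series of the product, multiplied by `b ^ m`; so
`T (m + 1) = b T m - r (m + 1)`. By the relation `q T m` is an integer up to the tails of the partial products.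
By Ridout's theorem, these are small and `q T m` is near to a positive integer for all `m ≤ N` but `o(N)`,
unless the product of the counts exceeds `C N`. A potential, a step function of `T m`, then shows that
the number of the sums of places of nonzero digits, counted with multiplicity, is at least `(1 - ε) N / L`; the
point is that a place with `T m ≥ w / (b - 1)`, where `w = q (b - 1) ^ n` bounds the contribution of one sum
of places, can be reached only after `L` steps without such a sum.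
-/

set_option autoImplicit false

open Finset Filter

namespace Pool.Agent.Results.MP_c8ecb2_nt.ProductsOfAlgebraicNumbers

/-- the `k`-th digit after the point of `x` in base `b` -/
noncomputable def digit (b : ℕ) (x : ℝ) (k : ℕ) : ℤ := ⌊x * (b : ℝ) ^ k⌋ % (b : ℤ)

/-- the number of windows `{k, …, k + t - 1}` of `t` consecutive places in `{1, …, N}` in which some digit
of `x` is not `v` -/
noncomputable def windows (b : ℕ) (v : ℤ) (x : ℝ) (t N : ℕ) : ℕ :=
  ((Icc 1 (N + 1 - t)).filter fun k => ∃ i < t, digit b x (k + i) ≠ v).card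

theorem result :
    -- (1) irrational algebraic numbers with a relation between their product and the products of
    -- fewer of them
    (∀ b : ℕ, 2 ≤ b → ∀ n : ℕ, 2 ≤ n → ∀ α : Fin n → ℝ, (∀ i, IsAlgebraic ℚ (α i)) →
      (∀ i, Irrational (α i)) → ∀ q : ℕ, 1 ≤ q → ∀ p : Finset (Fin n) → ℤ,
      (q : ℝ) * ∏ i, α i = ∑ I ∈ univ.erase (univ : Finset (Fin n)), (p I : ℝ) * ∏ i ∈ I, α i →
      ∀ v : Fin n → ℤ, (∀ i, v i = 0 ∨ v i = b - 1) → ∀ t L : ℕ, 1 ≤ t →
      q * (b ^ t - 1) ^ (n - 1) < b ^ (t * L) → ∀ ε : ℝ, 0 < ε → ∀ᶠ N : ℕ in atTop,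
        (1 - ε) * ((t : ℝ) ^ (n - 1) * N) ≤ L * ∏ i, (windows b (v i) (α i) t N : ℝ)) ∧
    -- (2) irrational algebraic numbers whose product is an integer
    (∀ b : ℕ, 2 ≤ b → ∀ n : ℕ, 2 ≤ n → ∀ α : Fin n → ℝ, (∀ i, IsAlgebraic ℚ (α i)) →
      (∀ i, Irrational (α i)) → (∃ c : ℤ, ∏ i, α i = c) →
      ∀ v : Fin n → ℤ, (∀ i, v i = 0 ∨ v i = b - 1) → ∀ t : ℕ, 1 ≤ t →
      ∀ ε : ℝ, 0 < ε → ∀ᶠ N : ℕ in atTop,
        (1 - ε) * ((t : ℝ) ^ (n - 1) * N) ≤ ((n : ℝ) - 1) * ∏ i, (windows b (v i) (α i) t N : ℝ)) ∧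
    -- (3) pairs of algebraic numbers whose product is an integer
    (∀ b : ℕ, 2 ≤ b → ∀ α β : ℝ, IsAlgebraic ℚ α → Irrational α → (∃ c : ℤ, c ≠ 0 ∧ α * β = c) →
      ∀ v w : ℤ, (v = 0 ∨ v = b - 1) → (w = 0 ∨ w = b - 1) → ∀ t : ℕ, 1 ≤ t →
      ∀ ε : ℝ, 0 < ε → ∀ᶠ N : ℕ in atTop,
        (1 - ε) * (t * N) ≤ (windows b v α t N : ℝ) * (windows b w β t N : ℝ)) ∧
    -- (4) bases of real number fields of degree `n + 1 ≥ 3`
    (∀ n : ℕ, 2 ≤ n → ∀ K : IntermediateField ℚ ℝ, Module.finrank ℚ K = n + 1 → ∀ α : Fin n → ℝ,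
      (∀ i, α i ∈ K) → LinearIndependent ℚ (Fin.cons (1 : ℝ) α : Fin (n + 1) → ℝ) →
      ∃ q : ℕ, 1 ≤ q ∧ ∀ b : ℕ, 2 ≤ b → ∀ v : Fin n → ℤ, (∀ i, v i = 0 ∨ v i = b - 1) →
      ∀ t L : ℕ, 1 ≤ t → q * (b ^ t - 1) ^ (n - 1) < b ^ (t * L) →
      ∀ ε : ℝ, 0 < ε → ∀ᶠ N : ℕ in atTop,
        (1 - ε) * ((t : ℝ) ^ (n - 1) * N) ≤ L * ∏ i, (windows b (v i) (α i) t N : ℝ)) := by
  have h1 : ∀ b : ℕ, 2 ≤ b → ∀ n : ℕ, 2 ≤ n → ∀ α : Fin n → ℝ, (∀ i, IsAlgebraic ℚ (α i)) →
      (∀ i, Irrational (α i)) → ∀ q : ℕ, 1 ≤ q → ∀ p : Finset (Fin n) → ℤ,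
      (q : ℝ) * ∏ i, α i = ∑ I ∈ univ.erase (univ : Finset (Fin n)), (p I : ℝ) * ∏ i ∈ I, α i →
      ∀ v : Fin n → ℤ, (∀ i, v i = 0 ∨ v i = b - 1) → ∀ t L : ℕ, 1 ≤ t →
      q * (b ^ t - 1) ^ (n - 1) < b ^ (t * L) → ∀ ε : ℝ, 0 < ε → ∀ᶠ N : ℕ in atTop,
        (1 - ε) * ((t : ℝ) ^ (n - 1) * N) ≤ L * ∏ i, (windows b (v i) (α i) t N : ℝ) := by
    intro b hb n hn α halg hirr q hq p hrel v hv t L ht hL ε hε
    have hL1 : 1 ≤ L := by
      rcases Nat.eq_zero_or_pos L with h | h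
      · exfalso
        rw [h, mul_zero, pow_zero] at hL
        have hbt : 2 ≤ b ^ t := by
          calc 2 ≤ b := hb
            _ = b ^ 1 := (pow_one b).symm
            _ ≤ b ^ t := Nat.pow_le_pow_right (by omega) ht
        have h2 : 1 ≤ (b ^ t - 1) ^ (n - 1) := Nat.one_le_pow _ _ (by omega)
        have h3 : 1 * 1 ≤ q * (b ^ t - 1) ^ (n - 1) := Nat.mul_le_mul hq h2
        omega
      · exact h
    obtain ⟨n0, h0⟩ := Pool.Agent.H90.PR.main_all hb (by rw [Fintype.card_fin]; exact hn) α halg hirr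
      q hq ⟨p, hrel⟩ v hv t ht L hL1 (by rw [Fintype.card_fin]; exact hL) hε
    filter_upwards [eventually_ge_atTop n0] with N hN
    have h2 := h0 N hN
    rw [Fintype.card_fin] at h2
    exact h2
  have h2 : ∀ b : ℕ, 2 ≤ b → ∀ n : ℕ, 2 ≤ n → ∀ α : Fin n → ℝ, (∀ i, IsAlgebraic ℚ (α i)) →
      (∀ i, Irrational (α i)) → (∃ c : ℤ, ∏ i, α i = c) →
      ∀ v : Fin n → ℤ, (∀ i, v i = 0 ∨ v i = b - 1) → ∀ t : ℕ, 1 ≤ t →
      ∀ ε : ℝ, 0 < ε → ∀ᶠ N : ℕ in atTop,
        (1 - ε) * ((t : ℝ) ^ (n - 1) * N) ≤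
          ((n : ℝ) - 1) * ∏ i, (windows b (v i) (α i) t N : ℝ) := by
    intro b hb n hn α halg hirr ⟨c, hc⟩ v hv t ht ε hε
    have h3 := h1 b hb n hn α halg hirr 1 le_rfl (fun I => if I = ∅ then c else 0) (by
      rw [Nat.cast_one, one_mul, hc]
      have hne : (∅ : Finset (Fin n)) ∈ univ.erase (univ : Finset (Fin n)) := by
        rw [mem_erase]
        refine ⟨?_, mem_univ _⟩
        have : Nonempty (Fin n) := ⟨⟨0, by omega⟩⟩
        exact (univ_nonempty (α := Fin n)).ne_empty.symm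
      rw [sum_eq_single_of_mem ∅ hne (fun I _ hI => by rw [if_neg hI]; simp)]
      simp) v hv t (n - 1) ht (by
      rw [one_mul, pow_mul]
      have hbt : 2 ≤ b ^ t := by
        calc 2 ≤ b := hb
          _ = b ^ 1 := (pow_one b).symm
          _ ≤ b ^ t := Nat.pow_le_pow_right (by omega) ht
      exact Nat.pow_lt_pow_left (by omega) (by omega)) ε hε
    have h4 : (((n - 1 : ℕ) : ℕ) : ℝ) = (n : ℝ) - 1 := by rw [Nat.cast_sub (by omega), Nat.cast_one]
    rw [h4] at h3
    exact h3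
  refine ⟨h1, h2, ?_, ?_⟩
  rotate_left
  · intro n hn K hK α hα hind
    obtain ⟨q, hq, p, hp⟩ := Pool.Agent.H90.PR.basis_rel K α hn hK hα hind
    refine ⟨q, hq, fun b hb v hv t L ht hL ε hε => ?_⟩
    exact h1 b hb n hn α (fun i => Pool.Agent.H90.PR.alg_of_mem K hK _ (hα i))
      (fun i => Pool.Agent.H90.PR.irr_of_ind α hind i) q hq p hp v hv t L ht hL ε hε
  intro b hb α β halg hirr ⟨c, hc0, hc⟩ v w hv hw t ht ε hε
  have hα0 : α ≠ 0 := hirr.ne_zero
  have hβ : β = c / α := by rw [← hc]; field_simp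
  have halgβ : IsAlgebraic ℚ β := by
    rw [hβ, div_eq_mul_inv]
    have h3 : ((c : ℤ) : ℝ) = algebraMap ℚ ℝ (c : ℚ) := by simp
    rw [h3]
    exact (isAlgebraic_algebraMap _).mul halg.inv
  have hirrβ : Irrational β := by
    rw [hβ]
    exact hirr.intCast_div hc0
  have h3 := h2 b hb 2 le_rfl ![α, β] (by
      intro i
      fin_cases i
      · exact halg
      · exact halgβ) (by
      intro i
      fin_cases i
      · exact hirr
      · exact hirrβ) ⟨c, by rw [Fin.prod_univ_two]; exact hc⟩ ![v, w] (by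
      intro i
      fin_cases i
      · exact hv
      · exact hw) t ht ε hε
  filter_upwards [h3] with N hN
  rw [Fin.prod_univ_two] at hN
  simp only [Matrix.cons_val_zero, Matrix.cons_val_one] at hN
  have e1 : (((2 : ℕ) : ℝ) - 1) = 1 := by norm_num
  rw [e1, one_mul, show 2 - 1 = 1 from rfl, pow_one] at hN
  exact hN

end Pool.Agent.Results.MP_c8ecb2_nt.ProductsOfAlgebraicNumbers
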