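import Pool.Agent.H90.PR.DegWin

/-!
# Windows of the digits of algebraic numbers of degree `D`

This is about the case of a single number. Let `ξ` be an irrational real root of an integer polynomial of
degree `D ≥ 2` with leading coefficient `± a`, let `b ≥ 2`, `e = 0` or `e = b - 1`, and let `W N` be the number
of windows of `t` consecutive places in `{1, …, N}` in which `ξ` has a digit different from `e`; for `t = 1`
this is the number of the digits which are not `e`. We show

`W N ^ D ≥ (1 - ε) (D! / L) t ^ (D - 1) N` for all large `N`,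

if `a D! = g h`, `g` divides a power of `b`, and `h (b ^ t - 1) ^ (D - 1) < b ^ (t L)`. In particular
`W N ^ D ≥ (1 - ε) (D - 1)! t ^ (D - 1) N` if `b ^ t ≥ a D!`, and `L = D - 1` is possible if all prime factors of
`a D!` divide `b`. The constant does not depend on the base and grows with the degree.

## The proof

Replacing `b` by `b ^ t` we may assume that `t = 1`. Let `F` be the power series of the digits of `1 + y`,
where `y` is the fractional part of `ξ`, let `r m` be the coefficients of `F ^ D`, and `T m` the tail of the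
series of `(1 + y) ^ D`, multiplied by `b ^ m`; so `T (m + 1) = b T m - r (m + 1)`. By the equation of `ξ`
the number `a T m` is an integer up to the tails of the lower powers, and by Ridout's theorem it is near to a
positive integer for most `m`; since `D!` divides most of the `r m`, this integer is divisible by `g` for most
`m`. A potential, a step function of `a T m / g`, shows that there must be at least `N / L` unordered sums of `D`
places of nonzero digits; the number of these sums is about `W N ^ D / D!`.
-/

set_option autoImplicit false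

open Finset Filter Polynomial

namespace Pool.Agent.Results.MP_c8ecb2_nt.WindowsByDegree

/-- the `k`-th digit after the point of `x` in base `b` -/
noncomputable def digit (b : ℕ) (x : ℝ) (k : ℕ) : ℤ := ⌊x * (b : ℝ) ^ k⌋ % (b : ℤ)

/-- the number of windows `{k, …, k + t - 1}` of `t` consecutive places in `{1, …, N}` in which some digit
of `x` is not `e` -/
noncomputable def windows (b : ℕ) (e : ℤ) (x : ℝ) (t N : ℕ) : ℕ :=
  ((Icc 1 (N + 1 - t)).filter fun k => ∃ i < t, digit b x (k + i) ≠ e).card

theorem result (b : ℕ) (hb : 2 ≤ b) (P : ℤ[X]) (hP : 2 ≤ P.natDegree) (ξ : ℝ) (hξ : Irrational ξ)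
    (hroot : aeval ξ P = 0) (e : ℤ) (he : e = 0 ∨ e = b - 1) (t : ℕ) (ht : 1 ≤ t)
    (ε : ℝ) (hε : 0 < ε) :
    -- (1) the general bound
    (∀ g h v L : ℕ, g ∣ b ^ v → P.leadingCoeff.natAbs * P.natDegree.factorial = g * h →
      h * (b ^ t - 1) ^ (P.natDegree - 1) < b ^ (t * L) → ∀ᶠ N : ℕ in atTop,
        (1 - ε) * (P.natDegree.factorial * ((t : ℝ) ^ (P.natDegree - 1) * N)) ≤
          L * (windows b e ξ t N : ℝ) ^ P.natDegree) ∧
    -- (2) large bases or long windows
    (P.leadingCoeff.natAbs * P.natDegree.factorial ≤ b ^ t → ∀ᶠ N : ℕ in atTop,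
        (1 - ε) * ((P.natDegree - 1).factorial * ((t : ℝ) ^ (P.natDegree - 1) * N)) ≤
          (windows b e ξ t N : ℝ) ^ P.natDegree) ∧
    -- (3) bases which are divisible by all prime factors of the leading coefficient and of `D!`
    ((∀ p : ℕ, p.Prime → p ∣ P.leadingCoeff.natAbs * P.natDegree.factorial → p ∣ b) →
      ∀ᶠ N : ℕ in atTop,
        (1 - ε) * (P.natDegree.factorial * ((t : ℝ) ^ (P.natDegree - 1) * N)) ≤
          ((P.natDegree : ℝ) - 1) * (windows b e ξ t N : ℝ) ^ P.natDegree) := by
  have hbt : 2 ≤ b ^ t := by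
    calc 2 ≤ b := hb
      _ = b ^ 1 := (pow_one b).symm
      _ ≤ b ^ t := Nat.pow_le_pow_right (by omega) ht
  have hP0 : P ≠ 0 := by rintro rfl; simp at hP
  have hl0 : P.leadingCoeff.natAbs ≠ 0 := Int.natAbs_ne_zero.2 (leadingCoeff_ne_zero.mpr hP0)
  have hM0 : P.leadingCoeff.natAbs * P.natDegree.factorial ≠ 0 :=
    Nat.mul_ne_zero hl0 (Nat.factorial_ne_zero _)
  have h1 : ∀ g h v L : ℕ, g ∣ b ^ v → P.leadingCoeff.natAbs * P.natDegree.factorial = g * h →
      h * (b ^ t - 1) ^ (P.natDegree - 1) < b ^ (t * L) → ∀ᶠ N : ℕ in atTop,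
        (1 - ε) * (P.natDegree.factorial * ((t : ℝ) ^ (P.natDegree - 1) * N)) ≤
          L * (windows b e ξ t N : ℝ) ^ P.natDegree := by
    intro g h v L hg hgh hL
    have hL1 : 1 ≤ L := by
      rcases Nat.eq_zero_or_pos L with h0 | h0
      · exfalso
        rw [h0, mul_zero, pow_zero] at hL
        have h2 : 1 ≤ (b ^ t - 1) ^ (P.natDegree - 1) := Nat.one_le_pow _ _ (by omega)
        have h3 : 1 ≤ h := by
          rcases Nat.eq_zero_or_pos h with h4 | h4
          · rw [h4, mul_zero] at hgh
            exact absurd hgh hM0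
          · exact h4
        have h4 : 1 * 1 ≤ h * (b ^ t - 1) ^ (P.natDegree - 1) := Nat.mul_le_mul h3 h2
        omega
      · exact h0
    obtain ⟨n0, h0⟩ := Pool.Agent.H90.PR.win_deg hb P hP hξ hroot g v h hg hgh t ht L hL1 hL e he
      ε hε
    filter_upwards [eventually_ge_atTop n0] with N hN
    exact h0 N hN
  refine ⟨h1, fun hle => ?_, fun hdiv => ?_⟩
  · have h2 := h1 1 (P.leadingCoeff.natAbs * P.natDegree.factorial) 0 P.natDegree (one_dvd _)
      (one_mul _).symm (by
        obtain ⟨d, hd⟩ : ∃ d, P.natDegree = d + 2 := ⟨P.natDegree - 2, by omega⟩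
        have e1 : b ^ (t * P.natDegree) = b ^ t * (b ^ t) ^ (P.natDegree - 1) := by
          rw [← pow_succ', ← pow_mul]
          congr 2
          omega
        rw [e1]
        have h3 : (b ^ t - 1) ^ (P.natDegree - 1) < (b ^ t) ^ (P.natDegree - 1) :=
          Nat.pow_lt_pow_left (by omega) (by omega)
        calc P.leadingCoeff.natAbs * P.natDegree.factorial * (b ^ t - 1) ^ (P.natDegree - 1) ≤
              b ^ t * (b ^ t - 1) ^ (P.natDegree - 1) := Nat.mul_le_mul_right _ hle
          _ < _ := Nat.mul_lt_mul_of_pos_left h3 (by omega))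
    filter_upwards [h2] with N hN
    obtain ⟨d, hd⟩ : ∃ d, P.natDegree = d + 1 := ⟨P.natDegree - 1, by omega⟩
    rw [hd] at hN ⊢
    rw [Nat.add_sub_cancel] at hN ⊢
    rw [Nat.factorial_succ] at hN
    push_cast at hN
    have h3 : (0 : ℝ) < (d : ℝ) + 1 := by positivity
    have h4 : ((d : ℝ) + 1) * ((1 - ε) * (d.factorial * ((t : ℝ) ^ d * N))) ≤
        ((d : ℝ) + 1) * (windows b e ξ t N : ℝ) ^ (d + 1) := by
      refine le_trans (le_of_eq ?_) hN
      ring
    exact le_of_mul_le_mul_left h4 h3
  · set M := P.leadingCoeff.natAbs * P.natDegree.factorial with hM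
    have hMv : M ∣ b ^ M := by
      have h2 : M.primeFactors ⊆ b.primeFactors := by
        intro p hp
        rw [Nat.mem_primeFactors] at hp ⊢
        exact ⟨hp.1, hdiv p hp.1 hp.2.1, by omega⟩
      rw [← Nat.factorization_le_iff_dvd hM0 (pow_ne_zero _ (by omega))]
      intro p
      rw [Nat.factorization_pow, Finsupp.smul_apply, smul_eq_mul]
      rcases Nat.eq_zero_or_pos (M.factorization p) with h3 | h3
      · rw [h3]; exact Nat.zero_le _
      · have h4 : p ∈ M.primeFactors := by
          rw [← Nat.support_factorization, Finsupp.mem_support_iff]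
          omega
        have h5 := h2 h4
        have h6 : 1 ≤ b.factorization p := by
          rw [← Nat.support_factorization, Finsupp.mem_support_iff] at h5
          omega
        calc M.factorization p ≤ M := (Nat.factorization_lt p hM0).le
          _ = M * 1 := (mul_one _).symm
          _ ≤ M * b.factorization p := Nat.mul_le_mul_left _ h6
    have h2 := h1 M 1 M (P.natDegree - 1) hMv (by rw [mul_one]) (by
      rw [one_mul, pow_mul]
      exact Nat.pow_lt_pow_left (by omega) (by omega))
    rw [Nat.cast_sub (by omega), Nat.cast_one] at h2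
    exact h2

end Pool.Agent.Results.MP_c8ecb2_nt.WindowsByDegree
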